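import Pool.Agent.TH28.FL.Dat

/-!
# FL2-TRN: a transversal datum from a semisimple element
-/

set_option autoImplicit false
set_option linter.unusedSectionVars false
set_option linter.style.haveILetI false

universe u v

namespace Pool.Agent.TH50.J1782

open Module Pool.Agent.TH28.FL

section basic

variable {K : Type u} {L : Type v} [Field K] [CharZero K] [LieRing L] [LieAlgebra K L]
  [FiniteDimensional K L]

theorem dg_eq_eigenspace (w : L) (j : ℤ) :
    dg K w j = Module.End.eigenspace (LieAlgebra.ad K L w) (j : K) := by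
  ext x
  rw [mem_dg, Module.End.mem_eigenspace_iff]
  rfl

/-- homogeneous components -/
theorem exists_comp {w : L} (h : ⨆ j : ℤ, dg K w j = ⊤) :
    ∃ p : ℤ → L →ₗ[K] L, (∀ j y, p j y ∈ dg K w j) ∧ (∀ j, ∀ y ∈ dg K w j, p j y = y) ∧
      (∀ i j, i ≠ j → ∀ y ∈ dg K w i, p j y = 0) ∧
      (∀ y, ∃ S : Finset ℤ, y = ∑ j ∈ S, p j y ∧ ∀ j, j ∉ S → p j y = 0) := by
  classical
  have hi : iSupIndep (fun j : ℤ => dg K w j) := by
    have h1 := (Module.End.eigenspaces_iSupIndep (LieAlgebra.ad K L w)).comp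
      (f := fun j : ℤ => (j : K)) Int.cast_injective
    have h2 : (fun j : ℤ => dg K w j) =
        (LieAlgebra.ad K L w).eigenspace ∘ (fun j : ℤ => (j : K)) := by
      funext j
      exact dg_eq_eigenspace w j
    rw [h2]
    exact h1
  have hint : DirectSum.IsInternal (fun j : ℤ => dg K w j) :=
    (DirectSum.isInternal_submodule_iff_iSupIndep_and_iSup_eq_top _).2 ⟨hi, h⟩
  letI : DirectSum.Decomposition (fun j : ℤ => dg K w j) := hint.chooseDecomposition
  let ℳ : ℤ → Submodule K L := fun j => dg K w j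
  refine ⟨fun j => (ℳ j).subtype ∘ₗ (DirectSum.component K ℤ (fun j => ℳ j) j) ∘ₗ
    (DirectSum.decomposeLinearEquiv ℳ).toLinearMap, ?_, ?_, ?_, ?_⟩
  · intro j y
    exact Subtype.mem _
  · intro j y hy
    exact DirectSum.decompose_of_mem_same ℳ hy
  · intro i j hij y hy
    exact DirectSum.decompose_of_mem_ne ℳ hy hij
  · intro y
    refine ⟨(DirectSum.decompose ℳ y).support, ?_, ?_⟩
    · exact (DirectSum.sum_support_decompose ℳ y).symm
    · intro j hj
      have : DirectSum.decompose ℳ y j = 0 := DFinsupp.notMem_support_iff.1 hj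
      show ((DirectSum.decompose ℳ y j : ℳ j) : L) = 0
      rw [this]
      rfl

theorem killing_lie (x y z : L) : killingForm K L ⁅x, y⁆ z = killingForm K L x ⁅y, z⁆ :=
  LieModule.traceForm_apply_lie_apply K L L x y z

theorem killing_comm (x y : L) : killingForm K L x y = killingForm K L y x :=
  LieModule.traceForm_comm K L L x y

theorem orth {w : L} {i j : ℤ} (hij : i + j ≠ 0) {x y : L} (hx : x ∈ dg K w i)
    (hy : y ∈ dg K w j) : killingForm K L x y = 0 := by
  have h1 : killingForm K L ⁅x, w⁆ y = killingForm K L x ⁅w, y⁆ := killing_lie x w y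
  rw [mem_dg] at hx hy
  rw [← lie_skew, hx, hy, map_neg, map_smul, LinearMap.neg_apply, LinearMap.smul_apply,
    map_smul, smul_eq_mul, smul_eq_mul] at h1
  have h2 : ((i + j : ℤ) : K) * killingForm K L x y = 0 := by
    push_cast
    linear_combination -h1
  rcases mul_eq_zero.1 h2 with h3 | h3
  · exact absurd (Int.cast_eq_zero.1 h3) hij
  · exact h3

theorem lie_mem_dg {w : L} {i j : ℤ} {x y : L} (hx : x ∈ dg K w i)
    (hy : y ∈ dg K w j) : ⁅x, y⁆ ∈ dg K w (i + j) := by
  rw [mem_dg] at hx hy ⊢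
  rw [leibniz_lie, hx, hy, smul_lie, lie_smul, ← add_smul]
  push_cast
  rfl

/-- transport of a datum -/
theorem dg_map (φ : L ≃ₗ⁅K⁆ L) (w : L) (j : ℤ) :
    dg K (φ w) j = (dg K w j).map (φ : L →ₗ[K] L) := by
  ext x
  rw [Submodule.mem_map]
  constructor
  · intro hx
    refine ⟨φ.symm x, ?_, ?_⟩
    · rw [mem_dg] at hx ⊢
      apply φ.injective
      show φ ⁅w, φ.symm x⁆ = φ ((j : K) • φ.symm x)
      rw [LieEquiv.map_lie, LieEquiv.apply_symm_apply, hx, map_smul, LieEquiv.apply_symm_apply]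
    · show φ (φ.symm x) = x
      rw [LieEquiv.apply_symm_apply]
  · rintro ⟨y, hy, rfl⟩
    rw [mem_dg] at hy ⊢
    show ⁅φ w, φ y⁆ = _ • φ y
    rw [← LieEquiv.map_lie, hy, map_smul]

theorem bb_map (φ : L ≃ₗ⁅K⁆ L) (w : L) :
    bb K (φ w) = (bb K w).map (φ : L →ₗ[K] L) := by
  unfold bb
  rw [Submodule.map_iSup]
  refine iSup_congr fun j => ?_
  rw [Submodule.map_iSup]
  refine iSup_congr fun _ => dg_map φ w j

theorem Dat_map (φ : L ≃ₗ⁅K⁆ L) {w : L} {M : ℤ} (h : Dat K w M) : Dat K (φ w) M := by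
  have hsurj : Function.Surjective (φ : L →ₗ[K] L) := φ.surjective
  refine ⟨h.pos, ?_, ?_, ?_, ?_, ?_⟩
  · simp_rw [dg_map]
    rw [← Submodule.map_iSup, h.top, Submodule.map_top, LinearMap.range_eq_top.2 hsurj]
  · intro j h1 h2
    rw [dg_map, h.gap j h1 h2, Submodule.map_bot]
  · intro j hj
    rw [dg_map]
    exact (Submodule.finrank_map_le _ _).trans (h.one j hj)
  · intro x hx y hy
    rw [dg_map, Submodule.mem_map] at hx hy
    obtain ⟨x', hx', rfl⟩ := hx
    obtain ⟨y', hy', rfl⟩ := hy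
    show ⁅φ x', φ y'⁆ = 0
    rw [← LieEquiv.map_lie, h.comm x' hx' y' hy', map_zero]
  · intro j hj z hz
    rw [dg_map, Submodule.mem_map] at hz
    obtain ⟨z', hz', rfl⟩ := hz
    have h1 := Submodule.mem_map_of_mem (f := (φ : L →ₗ[K] L)) (h.gen j hj z' hz')
    rw [Submodule.map_span] at h1
    refine Submodule.span_mono ?_ h1
    rintro _ ⟨t, ⟨c, hc1, hc2, hc3, x, hx, y, hy, rfl⟩, rfl⟩
    refine ⟨c, hc1, hc2, hc3, φ x, ?_, φ y, ?_, ?_⟩
    · rw [dg_map]
      exact Submodule.mem_map_of_mem hx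
    · rw [dg_map]
      exact Submodule.mem_map_of_mem hy
    · exact LieEquiv.map_lie φ x y


/-! ### filtration -/

/-- sum of the `dg i` with `i ≥ -m` -/
def FF (K : Type u) {L : Type v} [Field K] [LieRing L] [LieAlgebra K L] (w : L) (m : ℤ) :
    Submodule K L := ⨆ i : ℤ, ⨆ _ : -m ≤ i, dg K w i

theorem dg_le_FF {w : L} {m i : ℤ} (h : -m ≤ i) : dg K w i ≤ FF K w m :=
  le_iSup₂_of_le i h le_rfl

theorem FF_zero (w : L) : FF K w 0 = bb K w := by
  simp [FF, bb]

theorem FF_mono {w : L} {m n : ℤ} (h : m ≤ n) : FF K w m ≤ FF K w n := by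
  refine iSup₂_le fun i hi => dg_le_FF ?_
  omega

theorem lie_FF {w : L} {m n : ℤ} {x y : L} (hx : x ∈ FF K w m) (hy : y ∈ FF K w n) :
    ⁅x, y⁆ ∈ FF K w (m + n) := by
  have h1 : ∀ j, -n ≤ j → ∀ y ∈ dg K w j, ∀ x ∈ FF K w m, ⁅x, y⁆ ∈ FF K w (m + n) := by
    intro j hj y hy x hx
    let f : L →ₗ[K] L := -(LieAlgebra.ad K L y)
    have hf : FF K w m ≤ (FF K w (m + n)).comap f := by
      refine iSup₂_le fun i hi => ?_
      intro z hz
      rw [Submodule.mem_comap]
      have : f z = ⁅z, y⁆ := by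
        show -⁅y, z⁆ = ⁅z, y⁆
        rw [lie_skew]
      rw [this]
      exact dg_le_FF (by omega) (lie_mem_dg hz hy)
    have := hf hx
    rw [Submodule.mem_comap] at this
    have e : f x = ⁅x, y⁆ := by
      show -⁅y, x⁆ = ⁅x, y⁆
      rw [lie_skew]
    rwa [e] at this
  have h2 : FF K w n ≤ (FF K w (m + n)).comap (LieAlgebra.ad K L x) := by
    refine iSup₂_le fun j hj => ?_
    intro z hz
    rw [Submodule.mem_comap]
    exact h1 j hj z hz x hx
  exact h2 hy

/-- from the simple roots to everything -/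
theorem sup_eq_top {w : L} {M : ℤ} (hD : Dat K w M) (r : LieSubalgebra K L)
    (h : ∀ c : ℤ, M ≤ c → c < 2 * M → dg K w (-c) ≤ r.toSubmodule ⊔ bb K w) :
    r.toSubmodule ⊔ bb K w = ⊤ := by
  have key : ∀ n : ℕ, FF K w (n : ℤ) ≤ r.toSubmodule ⊔ bb K w := by
    intro n
    induction n with
    | zero =>
      rw [show ((0 : ℕ) : ℤ) = 0 from rfl, FF_zero]
      exact le_sup_right
    | succ n ih =>
      refine iSup₂_le fun i hi => ?_
      by_cases hi' : -(n : ℤ) ≤ i
      · exact (dg_le_FF hi').trans ih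
      · have hin : i = -((n : ℤ) + 1) := by push_cast at hi; omega
        by_cases h1 : ((n : ℤ) + 1) < M
        · rw [hD.gap i (by omega) (by rw [hin, abs_neg, abs_of_pos (by omega)]; exact h1)]
          exact bot_le
        · by_cases h2 : ((n : ℤ) + 1) < 2 * M
          · rw [hin]
            exact h _ (by omega) h2
          · intro z hz
            have h3 := hD.gen i (by rw [hin, abs_neg, abs_of_pos (by omega)]; omega) z hz
            refine (Submodule.span_le.2 ?_) h3
            rintro _ ⟨c, hc1, hc2, hc3, x, hx, y, hy, rfl⟩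
            have hM := hD.pos
            have hc : c < 0 := by
              by_contra hcon
              push Not at hcon
              have hi0 : i < 0 := by omega
              have : c * i ≤ 0 := mul_nonpos_of_nonneg_of_nonpos hcon hi0.le
              omega
            rw [abs_of_neg hc] at hc1 hc2
            have hx' : x ∈ r.toSubmodule ⊔ bb K w := by
              have := h (-c) hc1 hc2
              rw [neg_neg] at this
              exact this hx
            have hy' : y ∈ r.toSubmodule ⊔ bb K w := by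
              refine ih (dg_le_FF (i := i - c) ?_ hy)
              omega
            obtain ⟨r1, hr1, b1, hb1, e1⟩ := Submodule.mem_sup.1 hx'
            obtain ⟨r2, hr2, b2, hb2, e2⟩ := Submodule.mem_sup.1 hy'
            have hxF : x ∈ FF K w (-c) := dg_le_FF (by omega) hx
            have hyF : y ∈ FF K w (c - i) := dg_le_FF (by omega) hy
            rw [← FF_zero] at hb1 hb2
            have t1 : ⁅x, b2⁆ ∈ r.toSubmodule ⊔ bb K w := by
              refine ih (FF_mono ?_ (lie_FF hxF hb2))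
              omega
            have t2 : ⁅b1, y⁆ ∈ r.toSubmodule ⊔ bb K w := by
              refine ih (FF_mono ?_ (lie_FF hb1 hyF))
              omega
            have t3 : ⁅b1, b2⁆ ∈ r.toSubmodule ⊔ bb K w := by
              refine ih (FF_mono ?_ (lie_FF hb1 hb2))
              omega
            have t4 : ⁅r1, r2⁆ ∈ r.toSubmodule ⊔ bb K w :=
              le_sup_left (a := r.toSubmodule) (b := bb K w) (r.lie_mem hr1 hr2)
            have e : ⁅x, y⁆ = ⁅r1, r2⁆ + ⁅x, b2⁆ + ⁅b1, y⁆ - ⁅b1, b2⁆ := by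
              rw [← e1, ← e2]
              simp only [add_lie, lie_add]
              abel
            rw [e]
            exact sub_mem (add_mem (add_mem t4 t1) t2) t3
  rw [eq_top_iff, ← hD.top]
  refine iSup_le fun j => ?_
  exact (dg_le_FF (m := (j.natAbs : ℤ)) (by omega)).trans (key _)


/-! ### orthogonality -/

theorem orth_iSup {w : L} {P : ℤ → Prop} {i : ℤ} (h : ∀ j, P j → j + i ≠ 0) {y z : L}
    (hy : y ∈ ⨆ j : ℤ, ⨆ _ : P j, dg K w j) (hz : z ∈ dg K w i) : killingForm K L y z = 0 := by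
  have h1 : (⨆ j : ℤ, ⨆ _ : P j, dg K w j) ≤ LinearMap.ker ((killingForm K L).flip z) := by
    refine iSup₂_le fun j hj => ?_
    intro t ht
    rw [LinearMap.mem_ker]
    show killingForm K L t z = 0
    exact orth (h j hj) ht hz
  exact h1 hy

theorem line {p : Submodule K L} (h : finrank K p ≤ 1) {v : L} (hv : v ∈ p) (hv0 : v ≠ 0) {z : L}
    (hz : z ∈ p) : ∃ t : K, z = t • v := by
  have h0 : (⟨v, hv⟩ : p) ≠ 0 := fun h => hv0 (congrArg Subtype.val h)
  have h1 : finrank K p = 1 := by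
    have : 0 < finrank K p := by
      rw [Module.finrank_pos_iff]
      exact ⟨⟨⟨v, hv⟩, 0, h0⟩⟩
    omega
  obtain ⟨t, ht⟩ := (finrank_eq_one_iff_of_nonzero' (⟨v, hv⟩ : p) h0).1 h1 ⟨z, hz⟩
  exact ⟨t, (congrArg Subtype.val ht).symm⟩

/-- a commutator which commutes with its factors has no nonzero eigenvalue -/
theorem eig_zero (E F : Module.End K L) (hE : Commute (E * F - F * E) E)
    (hF : Commute (E * F - F * E) F) {μ : K} {v : L} (hv : v ≠ 0)
    (h : (E * F - F * E) v = μ • v) : μ = 0 := by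
  set D : Module.End K L := E * F - F * E with hD
  set W : Submodule K L := Module.End.eigenspace D μ with hW
  have hEW : ∀ x ∈ W, E x ∈ W := by
    intro x hx
    rw [hW, Module.End.mem_eigenspace_iff] at hx ⊢
    have : D (E x) = E (D x) := by
      have := congrArg (fun f : Module.End K L => f x) hE.eq
      exact this
    rw [this, hx, map_smul]
  have hFW : ∀ x ∈ W, F x ∈ W := by
    intro x hx
    rw [hW, Module.End.mem_eigenspace_iff] at hx ⊢
    have : D (F x) = F (D x) := by
      have := congrArg (fun f : Module.End K L => f x) hF.eq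
      exact this
    rw [this, hx, map_smul]
  let E' : Module.End K W := E.restrict hEW
  let F' : Module.End K W := F.restrict hFW
  have h1 : E' * F' - F' * E' = μ • (1 : Module.End K W) := by
    ext ⟨x, hx⟩
    show E (F x) - F (E x) = μ • x
    rw [hW, Module.End.mem_eigenspace_iff] at hx
    exact hx
  have h2 := congrArg (LinearMap.trace K W) h1
  rw [map_sub, LinearMap.trace_mul_comm, sub_self, map_smul, LinearMap.trace_one, smul_eq_mul] at h2
  have hvW : v ∈ W := by
    rw [hW, Module.End.mem_eigenspace_iff]; exact h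
  have h3 : finrank K W ≠ 0 := by
    have : 0 < finrank K W := by
      rw [Module.finrank_pos_iff]
      exact ⟨⟨⟨v, hvW⟩, 0, fun h => hv (congrArg Subtype.val h)⟩⟩
    omega
  rcases mul_eq_zero.1 h2.symm with h4 | h4
  · exact h4
  · exact absurd (by exact_mod_cast h4) h3

variable [LieAlgebra.IsKilling K L]

theorem kill_nondeg : (killingForm K L).Nondegenerate :=
  LieAlgebra.IsKilling.killingForm_nondegenerate K L

theorem kill_refl : (killingForm K L).IsRefl :=
  (LieModule.traceForm_isSymm K L L).isRefl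

theorem kill_sep {y : L} (h : ∀ z, killingForm K L y z = 0) : y = 0 :=
  (kill_nondeg (K := K) (L := L)).1 y h

theorem mem_orth {N : Submodule K L} {m : L} :
    m ∈ LinearMap.BilinForm.orthogonal (killingForm K L) N ↔ ∀ n ∈ N, killingForm K L n m = 0 :=
  Iff.rfl

theorem orth_inf (N₁ N₂ : Submodule K L) :
    LinearMap.BilinForm.orthogonal (killingForm K L) (N₁ ⊓ N₂) ≤
      LinearMap.BilinForm.orthogonal (killingForm K L) N₁ ⊔
        LinearMap.BilinForm.orthogonal (killingForm K L) N₂ := by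
  have h1 : LinearMap.BilinForm.orthogonal (killingForm K L)
      (LinearMap.BilinForm.orthogonal (killingForm K L) N₁ ⊔
        LinearMap.BilinForm.orthogonal (killingForm K L) N₂) ≤ N₁ ⊓ N₂ := by
    refine le_inf ?_ ?_
    · have := LinearMap.BilinForm.orthogonal_le (B := killingForm K L)
        (le_sup_left (a := LinearMap.BilinForm.orthogonal (killingForm K L) N₁)
          (b := LinearMap.BilinForm.orthogonal (killingForm K L) N₂))
      rwa [LinearMap.BilinForm.orthogonal_orthogonal kill_nondeg kill_refl N₁] at this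
    · have := LinearMap.BilinForm.orthogonal_le (B := killingForm K L)
        (le_sup_right (a := LinearMap.BilinForm.orthogonal (killingForm K L) N₁)
          (b := LinearMap.BilinForm.orthogonal (killingForm K L) N₂))
      rwa [LinearMap.BilinForm.orthogonal_orthogonal kill_nondeg kill_refl N₂] at this
  have h2 := LinearMap.BilinForm.orthogonal_le (B := killingForm K L) h1
  rwa [LinearMap.BilinForm.orthogonal_orthogonal kill_nondeg kill_refl] at h2

/-- the range of `ad x` is the orthogonal of its kernel -/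
theorem exists_lie {x y : L} (h : ∀ z : L, ⁅x, z⁆ = 0 → killingForm K L z y = 0) :
    ∃ v : L, ⁅v, x⁆ = y := by
  set N : Submodule K L := LinearMap.ker (LieAlgebra.ad K L x) with hN
  set R : Submodule K L := LinearMap.range (LieAlgebra.ad K L x) with hR
  have h1 : R ≤ LinearMap.BilinForm.orthogonal (killingForm K L) N := by
    rintro _ ⟨v, rfl⟩
    rw [mem_orth]
    intro n hn
    rw [hN, LinearMap.mem_ker] at hn
    have hn' : ⁅x, n⁆ = 0 := hn
    show killingForm K L n ⁅x, v⁆ = 0
    rw [← killing_lie, ← lie_skew, hn']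
    simp
  have h2 : finrank K (LinearMap.BilinForm.orthogonal (killingForm K L) N) = finrank K R := by
    rw [LinearMap.BilinForm.finrank_orthogonal kill_nondeg]
    have := LinearMap.finrank_range_add_finrank_ker (LieAlgebra.ad K L x)
    rw [← hN, ← hR] at this
    omega
  have h3 : R = LinearMap.BilinForm.orthogonal (killingForm K L) N :=
    Submodule.eq_of_le_of_finrank_eq h1 h2.symm
  have h4 : y ∈ R := by
    rw [h3, mem_orth]
    intro n hn
    exact h n (LinearMap.mem_ker.1 hn)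
  obtain ⟨v, hv⟩ := h4
  refine ⟨-v, ?_⟩
  rw [neg_lie, lie_skew]
  exact hv

/-- statement (i) -/
theorem step_i {r : LieSubalgebra K L} {x : L}
    (h1 : ∀ a ∈ r, ∀ b ∈ r, killingForm K L x ⁅a, b⁆ = 0)
    (h2 : finrank K (LinearMap.range (LieAlgebra.ad K L x)) ≤
      2 * finrank K (r.toSubmodule.map (LieAlgebra.ad K L x)))
    {v : L} (hv : ∀ ρ ∈ r, killingForm K L ρ ⁅v, x⁆ = 0) :
    ∃ ρ ∈ r, ∃ z : L, ⁅x, z⁆ = 0 ∧ v = ρ + z := by
  set f := LieAlgebra.ad K L x with hf
  set N : Submodule K L := LinearMap.ker f with hN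
  set Q : Submodule K L := r.toSubmodule.map f with hQ
  have e1 : r.toSubmodule ⊔ N ≤ LinearMap.BilinForm.orthogonal (killingForm K L) Q := by
    refine sup_le ?_ ?_
    · intro a ha
      rw [mem_orth]
      rintro _ ⟨b, hb, rfl⟩
      show killingForm K L ⁅x, b⁆ a = 0
      rw [killing_lie]
      exact h1 b hb a ha
    · intro a ha
      rw [mem_orth]
      rintro _ ⟨b, hb, rfl⟩
      have ha' : ⁅x, a⁆ = 0 := LinearMap.mem_ker.1 ha
      show killingForm K L ⁅x, b⁆ a = 0
      rw [← lie_skew, map_neg, LinearMap.neg_apply, killing_lie, ha']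
      simp
  have e2 : finrank K Q + finrank K (r.toSubmodule ⊓ N : Submodule K L) =
      finrank K r.toSubmodule := by
    have := LinearMap.finrank_range_add_finrank_ker (f.domRestrict r.toSubmodule)
    rw [LinearMap.range_domRestrict, ← hQ, LinearMap.ker_domRestrict] at this
    rw [← this]
    congr 1
    have h3 := Submodule.finrank_map_subtype_eq r.toSubmodule
      (Submodule.comap r.toSubmodule.subtype (LinearMap.ker f))
    rw [Submodule.map_comap_subtype] at h3
    exact h3
  have e3 := Submodule.finrank_sup_add_finrank_inf_eq r.toSubmodule N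
  have e4 := LinearMap.finrank_range_add_finrank_ker f
  rw [← hN] at e4
  have e5 : finrank K (LinearMap.BilinForm.orthogonal (killingForm K L) Q) =
      finrank K L - finrank K Q := LinearMap.BilinForm.finrank_orthogonal kill_nondeg _
  have e6 : finrank K Q ≤ finrank K L := Submodule.finrank_le _
  have e7 : r.toSubmodule ⊔ N = LinearMap.BilinForm.orthogonal (killingForm K L) Q := by
    refine Submodule.eq_of_le_of_finrank_le e1 ?_
    rw [e5]
    omega
  have e8 : v ∈ LinearMap.BilinForm.orthogonal (killingForm K L) Q := by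
    rw [mem_orth]
    rintro _ ⟨b, hb, rfl⟩
    have := hv b hb
    show killingForm K L ⁅x, b⁆ v = 0
    rw [← lie_skew, map_neg, LinearMap.neg_apply, killing_lie, ← lie_skew, map_neg, this]
    simp
  rw [← e7] at e8
  obtain ⟨ρ, hρ, z, hz, e⟩ := Submodule.mem_sup.1 e8
  exact ⟨ρ, hρ, z, LinearMap.mem_ker.1 hz, e.symm⟩


theorem bb_eq (w : L) : bb K w = dg K w 0 ⊔ nn K w := by
  apply le_antisymm
  · refine iSup₂_le fun j hj => ?_
    rcases hj.lt_or_eq with h | h
    · exact le_sup_of_le_right (le_iSup₂_of_le j h le_rfl)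
    · subst h
      exact le_sup_left
  · refine sup_le (le_iSup₂_of_le 0 le_rfl le_rfl) ?_
    exact iSup₂_le fun j hj => le_iSup₂_of_le j hj.le le_rfl

/-- the key claim -/
theorem claim (hR : S_REF.{u, v}) {r : LieSubalgebra K L} {x : L}
    (h1 : ∀ a ∈ r, ∀ b ∈ r, killingForm K L x ⁅a, b⁆ = 0)
    (h2 : finrank K (LinearMap.range (LieAlgebra.ad K L x)) ≤
      2 * finrank K (r.toSubmodule.map (LieAlgebra.ad K L x)))
    (h3 : ∀ a b : L, ⁅x, a⁆ = 0 → ⁅x, b⁆ = 0 → ⁅a, b⁆ ∈ r)
    {w : L} {M : ℤ} (hD : Dat K w M) (hx : x ∈ dg K w 0)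
    (hmin : ∀ w' : L, Dat K w' M → x ∈ dg K w' 0 →
      finrank K (r.toSubmodule ⊓ bb K w : Submodule K L) ≤
        finrank K (r.toSubmodule ⊓ bb K w' : Submodule K L))
    (c : ℤ) (hc1 : M ≤ c) (hc2 : c < 2 * M) : dg K w (-c) ≤ r.toSubmodule ⊔ bb K w := by
  classical
  by_contra hcon
  obtain ⟨f, hf, hfr⟩ := Set.not_subset.1 hcon
  have hf0 : f ≠ 0 := by
    rintro rfl
    exact hfr (Submodule.zero_mem _)
  have hM := hD.pos
  have hc0 : c ≠ 0 := by omega
  have hcK : (c : K) ≠ 0 := Int.cast_ne_zero.2 hc0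
  obtain ⟨p, hp1, hp2, hp3, hp4⟩ := exists_comp hD.top
  -- expansion of the Killing form
  have hexp : ∀ (y z : L) (j : ℤ), (∀ i, i ≠ j → killingForm K L y (p i z) = 0) →
      killingForm K L y z = killingForm K L y (p j z) := by
    intro y z j hj
    obtain ⟨S, hS, hS2⟩ := hp4 z
    conv_lhs => rw [hS]
    rw [map_sum]
    by_cases hjS : j ∈ S
    · rw [Finset.sum_eq_single j (fun i _ hi => hj i hi) (fun h => absurd hjS h)]
    · rw [hS2 j hjS, map_zero]
      refine Finset.sum_eq_zero fun i hi => hj i ?_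
      rintro rfl
      exact hjS hi
  have hexp0 : ∀ (y z : L), (∀ i, killingForm K L y (p i z) = 0) →
      killingForm K L y z = 0 := by
    intro y z hj
    obtain ⟨S, hS, _⟩ := hp4 z
    rw [hS, map_sum]
    exact Finset.sum_eq_zero fun i _ => hj i
  -- the dual line
  obtain ⟨e, he, hef⟩ : ∃ e ∈ dg K w c, killingForm K L e f ≠ 0 := by
    by_contra hno
    push Not at hno
    apply hf0
    apply kill_sep (K := K)
    intro z
    apply hexp0
    intro i
    by_cases hi : i = c
    · subst hi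
      rw [killing_comm]
      exact hno _ (hp1 _ _)
    · exact orth (by omega) hf (hp1 i z)
  have hlf : ∀ z ∈ dg K w (-c), ∃ t : K, z = t • f := fun z hz =>
    line (hD.one (-c) (by omega)) hf hf0 hz
  have hbbf : f ∉ bb K w := fun h => hfr (Submodule.mem_sup_right h)
  -- the intersection with `bb + K f`
  have hinter : r.toSubmodule ⊓ (bb K w ⊔ Submodule.span K {f}) ≤ r.toSubmodule ⊓ bb K w := by
    rintro y ⟨hy1, hy2⟩
    refine ⟨hy1, ?_⟩
    obtain ⟨b, hb, t, ht, rfl⟩ := Submodule.mem_sup.1 hy2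
    obtain ⟨s, rfl⟩ := Submodule.mem_span_singleton.1 ht
    by_cases hs : s = 0
    · subst hs
      rw [zero_smul, add_zero]
      exact hb
    · exfalso
      apply hfr
      have : f = s⁻¹ • ((b + s • f) - b) := by
        rw [add_sub_cancel_left, smul_smul, inv_mul_cancel₀ hs, one_smul]
      show f ∈ r.toSubmodule ⊔ bb K w
      rw [this]
      refine Submodule.smul_mem _ _ (sub_mem (Submodule.mem_sup_left hy1)
        (Submodule.mem_sup_right hb))
  -- reflection
  obtain ⟨φ, _, hφ0, hφn⟩ := hR K L w M hD c hc1 hc2 f hf hf0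
  set uc : Submodule K L := ⨆ j : ℤ, ⨆ _ : 0 < j ∧ j ≠ c, dg K w j with huc
  have hD' := Dat_map φ hD
  have hx' : x ∈ dg K (φ w) 0 := by
    rw [dg_map, hφ0]
    exact hx
  have hbb' : bb K (φ w) = dg K w 0 ⊔ (uc ⊔ Submodule.span K {f}) := by
    rw [bb_map, bb_eq, Submodule.map_sup, hφ0, hφn]
  have hucb : uc ≤ bb K w := iSup₂_le fun j hj => le_iSup₂_of_le j hj.1.le le_rfl
  have h0b : dg K w 0 ≤ bb K w := le_iSup₂_of_le 0 le_rfl le_rfl
  have hle : r.toSubmodule ⊓ bb K (φ w) ≤ r.toSubmodule ⊓ bb K w := by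
    refine le_trans (inf_le_inf_left _ ?_) hinter
    rw [hbb']
    exact sup_le (le_sup_of_le_left h0b) (sup_le_sup_right hucb _)
  have heq : r.toSubmodule ⊓ bb K (φ w) = r.toSubmodule ⊓ bb K w :=
    Submodule.eq_of_le_of_finrank_le hle (hmin _ hD' hx')
  have hsub : r.toSubmodule ⊓ (bb K w ⊔ Submodule.span K {f}) ≤ dg K w 0 ⊔ uc := by
    intro y hy
    have hy1 := hinter hy
    have hy2 : y ∈ bb K (φ w) := by
      rw [← heq] at hy1
      exact hy1.2
    rw [hbb'] at hy2
    obtain ⟨y0, hy0, t, ht, rfl⟩ := Submodule.mem_sup.1 hy2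
    obtain ⟨y1, hy1', s, hs, rfl⟩ := Submodule.mem_sup.1 ht
    obtain ⟨a, rfl⟩ := Submodule.mem_span_singleton.1 hs
    by_cases ha : a = 0
    · subst ha
      rw [zero_smul, add_zero]
      exact Submodule.add_mem _ (Submodule.mem_sup_left hy0) (Submodule.mem_sup_right hy1')
    · exfalso
      apply hbbf
      have : f = a⁻¹ • ((y0 + (y1 + a • f)) - (y0 + y1)) := by
        rw [show (y0 + (y1 + a • f)) - (y0 + y1) = a • f by abel, smul_smul,
          inv_mul_cancel₀ ha, one_smul]
      rw [this]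
      exact Submodule.smul_mem _ _ (sub_mem hy1.2 (add_mem (h0b hy0) (hucb hy1')))
  -- the elements η
  have horth : ∀ (i : ℤ), i ≠ 0 → i + c ≠ 0 ∨ i = -c → (∀ j : ℤ, 0 < j → j ≠ c → j + i ≠ 0) →
      ∀ g ∈ dg K w i, ∀ y ∈ r.toSubmodule ⊓ (bb K w ⊔ Submodule.span K {f}),
      killingForm K L y g = 0 := by
    intro i hi _ hij g hg y hy
    obtain ⟨y0, hy0, y1, hy1, rfl⟩ := Submodule.mem_sup.1 (hsub hy)
    rw [map_add, LinearMap.add_apply, orth (by omega) hy0 hg,
      orth_iSup (P := fun j => 0 < j ∧ j ≠ c) (fun j hj => hij j hj.1 hj.2) hy1 hg, add_zero]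
  have heta : ∀ (i : ℤ), i ≠ 0 → i + c ≠ 0 ∨ i = -c → (∀ j : ℤ, 0 < j → j ≠ c → j + i ≠ 0) →
      ∀ g ∈ dg K w i, ∃ η q : L, η + q = g ∧ (∀ ρ ∈ r, killingForm K L ρ η = 0) ∧
      (∀ b ∈ bb K w, killingForm K L b q = 0) ∧ killingForm K L f q = 0 := by
    intro i hi hi2 hij g hg
    have h5 : g ∈ LinearMap.BilinForm.orthogonal (killingForm K L)
        (r.toSubmodule ⊓ (bb K w ⊔ Submodule.span K {f})) := by
      rw [mem_orth]
      exact horth i hi hi2 hij g hg
    obtain ⟨η, hη, q, hq, e1⟩ := Submodule.mem_sup.1 (orth_inf _ _ h5)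
    refine ⟨η, q, e1, fun ρ hρ => hη ρ hρ, fun b hb => hq b (Submodule.mem_sup_left hb), ?_⟩
    exact hq f (Submodule.mem_sup_right (Submodule.mem_span_singleton_self f))
  obtain ⟨η, q, hηq, hηr, hqb, hqf⟩ := heta c hc0 (Or.inl (by omega)) (fun j hj _ => by omega) e he
  obtain ⟨η', q', hηq', hηr', hqb', hqf'⟩ := heta (-c) (by omega) (Or.inr rfl)
    (fun j hj hjc => by omega) f hf
  -- commutation with `x`
  have hwx : ⁅x, w⁆ = 0 := by
    have : ⁅w, x⁆ = ((0 : ℤ) : K) • x := hx
    rw [← lie_skew, this]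
    simp
  have hcomm : ∀ i z, p i ⁅x, z⁆ = ⁅x, p i z⁆ := by
    intro i z
    obtain ⟨S, hS, hS2⟩ := hp4 z
    have hmem : ∀ j, ⁅x, p j z⁆ ∈ dg K w j := by
      intro j
      have := lie_mem_dg hx (hp1 j z)
      rwa [zero_add] at this
    conv_lhs => rw [hS]
    rw [lie_sum, map_sum]
    by_cases hiS : i ∈ S
    · rw [Finset.sum_eq_single i (fun j _ hj => hp3 j i hj _ (hmem j)) (fun h => absurd hiS h)]
      exact hp2 i _ (hmem i)
    · rw [hS2 i hiS, lie_zero]
      refine Finset.sum_eq_zero fun j hj => hp3 j i ?_ _ (hmem j)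
      rintro rfl
      exact hiS hj
  have hq0 : ∀ q : L, (∀ b ∈ bb K w, killingForm K L b q = 0) → ∀ j, j ≤ 0 → p j q = 0 := by
    intro q hq j hj
    apply kill_sep (K := K)
    intro z
    rw [hexp (p j q) z (-j) (fun i hi => orth (by omega) (hp1 j q) (hp1 i z)), killing_comm,
      ← hexp (p (-j) z) q j (fun i hi => orth (by omega) (hp1 (-j) z) (hp1 i q))]
    exact hq _ ((le_iSup₂_of_le (-j) (by omega) le_rfl : dg K w (-j) ≤ bb K w) (hp1 (-j) z))
  have hperp : ∀ η : L, (∀ ρ ∈ r, killingForm K L ρ η = 0) →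
      (∀ y ∈ dg K w 0, killingForm K L y η = 0) → ∀ z, ⁅x, z⁆ = 0 → killingForm K L z η = 0 := by
    intro η hηr hη0 z hz
    rw [killing_comm]
    apply hexp0
    intro i
    rw [killing_comm]
    by_cases hi : i = 0
    · subst hi
      exact hη0 _ (hp1 0 z)
    · have hzi : ⁅x, p i z⁆ = 0 := by rw [← hcomm, hz, map_zero]
      have hmem : ⁅w, p i z⁆ ∈ r := h3 _ _ hwx hzi
      have hiK : (i : K) ≠ 0 := Int.cast_ne_zero.2 hi
      have : p i z = (i : K)⁻¹ • ⁅w, p i z⁆ := by
        rw [show ⁅w, p i z⁆ = (i : K) • p i z from hp1 i z, smul_smul, inv_mul_cancel₀ hiK,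
          one_smul]
      rw [this, map_smul, LinearMap.smul_apply, hηr _ hmem, smul_zero]
  have hη1 : η = e - q := by rw [← hηq]; abel
  have hη1' : η' = f - q' := by rw [← hηq']; abel
  have hη0 : ∀ y ∈ dg K w 0, killingForm K L y η = 0 := by
    intro y hy
    rw [hη1, map_sub, orth (by omega) hy he, hqb y (h0b hy), sub_zero]
  have hη0' : ∀ y ∈ dg K w 0, killingForm K L y η' = 0 := by
    intro y hy
    rw [hη1', map_sub, orth (by omega) hy hf, hqb' y (h0b hy), sub_zero]
  have hker := hperp η hηr hη0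
  have hker' := hperp η' hηr' hη0'
  -- action of elements of degree zero on `e` and `f`
  have hact : ∀ y ∈ dg K w 0, ⁅y, f⁆ = 0 → ⁅y, e⁆ = 0 := by
    intro y hy hyf
    have hye : ⁅y, e⁆ ∈ dg K w c := by
      have := lie_mem_dg hy he
      rwa [zero_add] at this
    apply kill_sep (K := K)
    intro z
    rw [hexp ⁅y, e⁆ z (-c) (fun i hi => orth (by omega) hye (hp1 i z))]
    obtain ⟨s, hs⟩ := hlf _ (hp1 (-c) z)
    rw [hs, map_smul, ← lie_skew, map_neg, LinearMap.neg_apply, killing_lie, hyf]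
    simp
  have hxf : ⁅x, f⁆ ∈ dg K w (-c) := by
    have := lie_mem_dg hx hf
    rwa [zero_add] at this
  obtain ⟨t, ht⟩ := hlf _ hxf
  by_cases ht0 : t = 0
  · rw [ht0, zero_smul] at ht
    have hxe := hact x hx ht
    set h := ⁅e, f⁆ with hh
    have hh0 : h ∈ dg K w 0 := by
      have := lie_mem_dg he hf
      rwa [add_neg_cancel] at this
    have hxh : ⁅x, h⁆ = 0 := by
      rw [hh, leibniz_lie, hxe, ht]
      simp
    have hhf : ⁅h, f⁆ ∈ dg K w (-c) := by
      have := lie_mem_dg hh0 hf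
      rwa [zero_add] at this
    obtain ⟨μ, hμ⟩ := hlf _ hhf
    by_cases hμ0 : μ = 0
    · rw [hμ0, zero_smul] at hμ
      have hhe := hact h hh0 hμ
      have hadh : LieAlgebra.ad K L h = LieAlgebra.ad K L e * LieAlgebra.ad K L f -
          LieAlgebra.ad K L f * LieAlgebra.ad K L e := by
        ext z
        show ⁅h, z⁆ = ⁅e, ⁅f, z⁆⁆ - ⁅f, ⁅e, z⁆⁆
        rw [hh, lie_lie]
      have hE : Commute (LieAlgebra.ad K L e * LieAlgebra.ad K L f -
          LieAlgebra.ad K L f * LieAlgebra.ad K L e) (LieAlgebra.ad K L e) := by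
        rw [← hadh]
        ext z
        show ⁅h, ⁅e, z⁆⁆ = ⁅e, ⁅h, z⁆⁆
        rw [leibniz_lie, hhe, zero_lie, zero_add]
      have hF : Commute (LieAlgebra.ad K L e * LieAlgebra.ad K L f -
          LieAlgebra.ad K L f * LieAlgebra.ad K L e) (LieAlgebra.ad K L f) := by
        rw [← hadh]
        ext z
        show ⁅h, ⁅f, z⁆⁆ = ⁅f, ⁅h, z⁆⁆
        rw [leibniz_lie, hμ, zero_lie, zero_add]
      have hall : ∀ z : L, ⁅h, z⁆ = 0 := by
        intro z
        obtain ⟨S, hS, _⟩ := hp4 z
        rw [hS, lie_sum]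
        refine Finset.sum_eq_zero fun i _ => ?_
        by_cases hi : i = 0
        · subst hi
          exact hD.comm _ hh0 _ (hp1 0 z)
        · by_cases hv : p i z = 0
          · rw [hv, lie_zero]
          · have hm : ⁅h, p i z⁆ ∈ dg K w i := by
              have := lie_mem_dg hh0 (hp1 i z)
              rwa [zero_add] at this
            obtain ⟨ν, hν⟩ := line (hD.one i hi) (hp1 i z) hv hm
            have hν0 : ν = 0 := by
              refine eig_zero _ _ hE hF hv ?_
              rw [← hadh]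
              exact hν
            rw [hν, hν0, zero_smul]
      have hadz : LieAlgebra.ad K L h = 0 := by
        ext z
        exact hall z
      have e1 : killingForm K L h w = 0 := by
        rw [killingForm_apply_apply, hadz]
        simp
      have e2 : killingForm K L h w = (c : K) * killingForm K L e f := by
        have hfw : ⁅f, w⁆ = (c : K) • f := by
          have : ⁅w, f⁆ = ((-c : ℤ) : K) • f := hf
          rw [← lie_skew, this]
          push_cast
          rw [neg_smul, neg_neg]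
        rw [hh, killing_lie, hfw, map_smul, smul_eq_mul]
      rw [e1] at e2
      exact (mul_ne_zero hcK hef) e2.symm
    · apply hfr
      have : f = μ⁻¹ • ⁅h, f⁆ := by
        rw [hμ, smul_smul, inv_mul_cancel₀ hμ0, one_smul]
      show f ∈ r.toSubmodule ⊔ bb K w
      rw [this]
      exact Submodule.smul_mem _ _ (Submodule.mem_sup_left (h3 _ _ hxh ht))
  · obtain ⟨v, hv⟩ := exists_lie (x := x) (y := η) hker
    obtain ⟨v', hv'⟩ := exists_lie (x := x) (y := η') hker'
    obtain ⟨ρ, hρ, z, hz, hvz⟩ := step_i h1 h2 (v := v) (fun ρ hρ => by rw [hv]; exact hηr ρ hρ)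
    obtain ⟨ρ', hρ', z', hz', hvz'⟩ := step_i h1 h2 (v := v')
      (fun ρ hρ => by rw [hv']; exact hηr' ρ hρ)
    have hzx : ⁅z, x⁆ = 0 := by rw [← lie_skew, hz, neg_zero]
    have hzx' : ⁅z', x⁆ = 0 := by rw [← lie_skew, hz', neg_zero]
    have hρη : ⁅ρ, x⁆ = η := by rw [← hv, hvz, add_lie, hzx, add_zero]
    have hρη' : ⁅x, ρ'⁆ = -η' := by
      rw [← hv', hvz', add_lie, hzx', add_zero, lie_skew]
    have e1 : killingForm K L η ρ' = 0 := by
      rw [← hρη, ← lie_skew, map_neg, LinearMap.neg_apply, killing_lie, h1 ρ hρ ρ' hρ', neg_zero]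
    have hpf : ∀ i, i ≤ 0 → ⁅x, p i ρ'⁆ = - p i f := by
      intro i hi
      rw [← hcomm, hρη', map_neg, hη1', map_sub, hq0 q' hqb' i hi, sub_zero]
    have e2 : killingForm K L η ρ' = killingForm K L η (p (-c) ρ') := by
      apply hexp
      intro i hi
      rw [killing_comm]
      by_cases hi0 : 0 ≤ i
      · rw [hη1, map_sub, orth (by omega) (hp1 i ρ') he,
          hqb _ ((le_iSup₂_of_le i hi0 le_rfl : dg K w i ≤ bb K w) (hp1 i ρ')), sub_zero]
      · apply hker
        rw [hpf i (by omega), hp3 (-c) i (Ne.symm hi) f hf, neg_zero]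
    obtain ⟨s, hs⟩ := hlf _ (hp1 (-c) ρ')
    have e3 : ⁅x, p (-c) ρ'⁆ = -f := by
      rw [hpf (-c) (by omega), hp2 (-c) f hf]
    have hs0 : s ≠ 0 := by
      rintro rfl
      rw [hs, zero_smul, lie_zero] at e3
      exact hf0 (neg_eq_zero.1 e3.symm)
    have e4 : killingForm K L η f = killingForm K L e f := by
      rw [hη1, map_sub, LinearMap.sub_apply, killing_comm q f, hqf, sub_zero]
    rw [e2, hs, map_smul, e4, smul_eq_mul] at e1
    exact (mul_ne_zero hs0 hef) e1

end basic

theorem trn (hR : Pool.Agent.TH28.FL.S_REF.{u, v}) (h3 : Pool.Agent.TH28.FL.S_DAT3.{u, v}) :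
    Pool.Agent.TH28.FL.S_TRN.{u, v} := by
  classical
  intro K _ _ _ L _ _ _ _ r x hx h1 h2 h4
  obtain ⟨w0, M, hD0, hx0⟩ := h3 K L x hx
  have hex : ∃ n : ℕ, ∃ w : L, Dat K w M ∧ x ∈ dg K w 0 ∧
      finrank K (r.toSubmodule ⊓ bb K w : Submodule K L) = n := ⟨_, w0, hD0, hx0, rfl⟩
  obtain ⟨w, hD, hxw, hn⟩ := Nat.find_spec hex
  refine ⟨w, M, hD, sup_eq_top hD r ?_⟩
  intro c hc1 hc2
  refine claim hR h1 h2 h4 hD hxw ?_ c hc1 hc2
  intro w' hD' hxw'
  rw [hn]
  exact Nat.find_min' hex ⟨w', hD', hxw', rfl⟩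

end Pool.Agent.TH50.J1782
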